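import Mathlib

set_option autoImplicit false

/-!
An extension operator for the ordinal interval `[0, ω^ω]` embedded in `[0, 1/2]`.
-/

open Set Topology Filter

namespace H51R3.CB

/-- the ordinal `ω^ω` -/
noncomputable def ww : Ordinal.{0} := Ordinal.omega0.{0} ^ Ordinal.omega0.{0}

/-- the compact space of the ordinals `≤ ω^ω` -/
abbrev K : Type 1 := ↥(Set.Iic (Ordinal.omega0.{0} ^ Ordinal.omega0.{0}))

instance : CompactSpace K := by
  rw [← isCompact_iff_compactSpace]
  have h : Set.Iic (Ordinal.omega0.{0} ^ Ordinal.omega0.{0}) =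
      Set.Icc 0 (Ordinal.omega0.{0} ^ Ordinal.omega0.{0}) := by
    ext x
    simp
  rw [h]
  exact isCompact_Icc

instance : Countable K := by
  have h : Set.Iic (Ordinal.omega0.{0} ^ Ordinal.omega0.{0}) =
      Set.Iio (Order.succ (Ordinal.omega0.{0} ^ Ordinal.omega0.{0})) := by
    ext x
    rw [Set.mem_Iic, Set.mem_Iio, Order.lt_succ_iff]
  rw [← Cardinal.mk_le_aleph0_iff]
  change Cardinal.mk ↥(Set.Iic (Ordinal.omega0.{0} ^ Ordinal.omega0.{0})) ≤ _
  rw [h, Cardinal.mk_Iio_ordinal, Cardinal.lift_le_aleph0, Order.succ_eq_add_one, Ordinal.card_add_one,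
    Ordinal.card_omega0_opow Ordinal.omega0_ne_zero]
  simp

noncomputable instance : Encodable K := Encodable.ofCountable K

/-- the weights -/
noncomputable def w (β : K) : ℝ := (posSumOfEncodable (ε := 1 / 2) (by norm_num) K).1 β

lemma w_pos (β : K) : 0 < w β := (posSumOfEncodable (ε := 1 / 2) (by norm_num) K).2.1 β

lemma w_summable : Summable w := by
  obtain ⟨c, hc, -⟩ := (posSumOfEncodable (ε := 1 / 2) (by norm_num) K).2.2
  exact hc.summable

lemma w_tsum : ∑' β, w β ≤ 1 / 2 := by
  obtain ⟨c, hc, hc2⟩ := (posSumOfEncodable (ε := 1 / 2) (by norm_num) K).2.2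
  have : ∑' β, w β = c := hc.tsum_eq
  rw [this]
  exact hc2

open Classical in
/-- the embedding of `K` in the line -/
noncomputable def ph (α : K) : ℝ := ∑' β : K, if β < α then w β else 0

lemma term_summable (α : K) : Summable fun β : K => if β < α then w β else 0 := by
  classical
  refine Summable.of_nonneg_of_le ?_ ?_ w_summable
  · intro β
    split_ifs
    · exact (w_pos β).le
    · exact le_rfl
  · intro β
    split_ifs
    · exact le_rfl
    · exact (w_pos β).le

lemma ph_nonneg (α : K) : 0 ≤ ph α := by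
  refine tsum_nonneg fun β => ?_
  split_ifs
  · exact (w_pos β).le
  · exact le_rfl

lemma ph_le (α : K) : ph α ≤ 1 / 2 := by
  refine le_trans ?_ w_tsum
  refine (term_summable α).tsum_le_tsum ?_ w_summable
  intro β
  split_ifs
  · exact le_rfl
  · exact (w_pos β).le

/-- the successor in `K` (the last point is its own successor) -/
noncomputable def sc (α : K) : K :=
  ⟨min (Order.succ α.1) (Ordinal.omega0.{0} ^ Ordinal.omega0.{0}), Set.mem_Iic.2 (min_le_right _ _)⟩

lemma le_sc (α : K) : α ≤ sc α := by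
  change α.1 ≤ min (Order.succ α.1) _
  exact le_min (Order.le_succ _) α.2

lemma sc_le {α β : K} (h : α < β) : sc α ≤ β := by
  change min (Order.succ α.1) _ ≤ β.1
  exact (min_le_left _ _).trans (Order.succ_le_of_lt h)

lemma lt_sc {α β : K} (h : α < β) : α < sc α := by
  change α.1 < min (Order.succ α.1) _
  refine lt_min (Order.lt_succ _) ?_
  exact lt_of_lt_of_le (show α.1 < β.1 from h) β.2

lemma ph_add {α β : K} (h : α < β) : ph α + w α ≤ ph β := by
  classical
  have h1 : ph α + w α = ∑' γ : K, ((if γ < α then w γ else 0) + (if γ = α then w γ else 0)) := by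
    rw [Summable.tsum_add (term_summable α)]
    · rw [tsum_ite_eq]
      rfl
    · exact (hasSum_ite_eq α (w α)).summable.congr (fun γ => by
        by_cases hγ : γ = α
        · rw [if_pos hγ, if_pos hγ, hγ]
        · rw [if_neg hγ, if_neg hγ])
  rw [h1]
  refine Summable.tsum_le_tsum ?_ ?_ (term_summable β)
  · intro γ
    by_cases h2 : γ < α
    · rw [if_pos h2, if_neg h2.ne, if_pos (h2.trans h), add_zero]
    · rw [if_neg h2, zero_add]
      by_cases h3 : γ = α
      · rw [if_pos h3, if_pos (h3 ▸ h)]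
      · rw [if_neg h3]
        split_ifs
        · exact (w_pos γ).le
        · exact le_rfl
  · exact (term_summable α).add ((hasSum_ite_eq α (w α)).summable.congr (fun γ => by
        by_cases hγ : γ = α
        · rw [if_pos hγ, if_pos hγ, hγ]
        · rw [if_neg hγ, if_neg hγ]))

lemma ph_sc {α β : K} (h : α < β) : ph (sc α) = ph α + w α := by
  classical
  refine le_antisymm ?_ (ph_add (lt_sc h))
  have h1 : ph α + w α = ∑' γ : K, ((if γ < α then w γ else 0) + (if γ = α then w γ else 0)) := by
    rw [Summable.tsum_add (term_summable α)]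
    · rw [tsum_ite_eq]
      rfl
    · exact (hasSum_ite_eq α (w α)).summable.congr (fun γ => by
        by_cases hγ : γ = α
        · rw [if_pos hγ, if_pos hγ, hγ]
        · rw [if_neg hγ, if_neg hγ])
  rw [h1]
  refine Summable.tsum_le_tsum ?_ (term_summable _) ?_
  · intro γ
    by_cases h2 : γ < sc α
    · rw [if_pos h2]
      have h3 : γ ≤ α := by
        by_contra hcon
        push Not at hcon
        exact absurd (sc_le hcon) (not_le.2 h2)
      rcases h3.lt_or_eq with h4 | h4
      · rw [if_pos h4, if_neg h4.ne, add_zero]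
      · rw [if_neg (by rw [h4]; exact lt_irrefl _), if_pos h4, zero_add]
    · rw [if_neg h2]
      have h5 := (w_pos γ).le
      split_ifs <;> linarith
  · exact (term_summable α).add ((hasSum_ite_eq α (w α)).summable.congr (fun γ => by
        by_cases hγ : γ = α
        · rw [if_pos hγ, if_pos hγ, hγ]
        · rw [if_neg hγ, if_neg hγ]))

lemma ph_mono {α β : K} (h : α ≤ β) : ph α ≤ ph β := by
  rcases h.lt_or_eq with h | h
  · have := ph_add h
    have := w_pos α
    linarith
  · rw [h]

lemma ph_lt {α β : K} (h : α < β) : ph α < ph β := by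
  have := ph_add h
  have := w_pos α
  linarith

lemma clopen (β : K) : IsClopen {α : K | β < α} := by
  constructor
  · by_cases h : ∃ γ : K, β < γ
    · obtain ⟨γ, hγ⟩ := h
      have : {α : K | β < α} = Set.Ici (sc β) := by
        ext α
        exact ⟨fun h => sc_le h, fun h => (lt_sc hγ).trans_le h⟩
      rw [this]
      exact isClosed_Ici
    · push Not at h
      have : {α : K | β < α} = ∅ := by
        ext α
        simp only [Set.mem_ofPred_eq, Set.mem_empty_iff_false, iff_false, not_lt]
        exact h α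
      rw [this]
      exact isClosed_empty
  · exact isOpen_Ioi

lemma ph_cont : Continuous ph := by
  classical
  refine continuous_tsum (u := w) ?_ w_summable ?_
  · intro β
    refine Continuous.if (p := fun α : K => β < α) ?_ continuous_const continuous_const
    intro a ha
    rw [(clopen β).frontier_eq] at ha
    exact absurd ha (Set.notMem_empty _)
  · intro β α
    rw [Real.norm_eq_abs]
    split_ifs
    · rw [abs_of_pos (w_pos β)]
    · rw [abs_zero]
      exact (w_pos β).le

/-- the first point -/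
noncomputable def k0 : K := ⟨0, Set.mem_Iic.2 zero_le⟩

lemma ph_k0 : ph k0 = 0 := by
  classical
  unfold ph
  have h : ∀ β : K, ¬ β < k0 := fun β hβ => by
    have h1 : β.1 < 0 := hβ
    exact absurd h1 (not_lt.2 zero_le)
  simp only [h, if_false, tsum_zero]

lemma exists_A (x : ℝ) (hx : 0 ≤ x) : ∃ α : K, IsGreatest {α : K | ph α ≤ x} α := by
  have hc : IsCompact {α : K | ph α ≤ x} := (isClosed_le ph_cont continuous_const).isCompact
  exact hc.exists_isGreatest ⟨k0, by
    rw [Set.mem_ofPred_eq, ph_k0]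
    exact hx⟩

/-- the last point to the left of `x` -/
noncomputable def A (x : ℝ) : K := Classical.choose (exists_A (max x 0) (le_max_right _ _))

lemma ph_A (x : ℝ) : ph (A x) ≤ max x 0 :=
  (Classical.choose_spec (exists_A (max x 0) (le_max_right _ _))).1

lemma le_A {x : ℝ} {β : K} (h : ph β ≤ max x 0) : β ≤ A x :=
  (Classical.choose_spec (exists_A (max x 0) (le_max_right _ _))).2 h

/-- the interpolation parameter -/
noncomputable def t (x : ℝ) : ℝ := min 1 ((max x 0 - ph (A x)) / w (A x))

lemma t_nonneg (x : ℝ) : 0 ≤ t x :=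
  le_min zero_le_one (div_nonneg (sub_nonneg.2 (ph_A x)) (w_pos _).le)

lemma t_le (x : ℝ) : t x ≤ 1 := min_le_left _ _

/-- the extension of a function on `K` -/
noncomputable def E (f : K → ℝ) (x : ℝ) : ℝ := (1 - t x) * f (A x) + t x * f (sc (A x))

lemma E_ph (f : K → ℝ) (α : K) : E f (ph α) = f α := by
  have hm : max (ph α) 0 = ph α := max_eq_left (ph_nonneg α)
  have hA : A (ph α) = α := by
    apply le_antisymm
    · by_contra hcon
      push Not at hcon
      have h1 := ph_lt hcon
      have h2 := ph_A (ph α)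
      rw [hm] at h2
      linarith
    · exact le_A (le_max_left _ _)
  have ht : t (ph α) = 0 := by
    unfold t
    rw [hA, hm, sub_self, zero_div]
    exact min_eq_right zero_le_one
  unfold E
  rw [ht, hA]
  ring

lemma E_bdd {f : K → ℝ} {C : ℝ} (hf : ∀ α, |f α| ≤ C) (x : ℝ) : |E f x| ≤ C := by
  unfold E
  have h0 := t_nonneg x
  have h1 := t_le x
  calc |(1 - t x) * f (A x) + t x * f (sc (A x))|
      ≤ |(1 - t x) * f (A x)| + |t x * f (sc (A x))| := abs_add_le _ _
    _ = (1 - t x) * |f (A x)| + t x * |f (sc (A x))| := by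
        rw [abs_mul, abs_mul, abs_of_nonneg h0, abs_of_nonneg (sub_nonneg.2 h1)]
    _ ≤ (1 - t x) * C + t x * C :=
        add_le_add (mul_le_mul_of_nonneg_left (hf _) (sub_nonneg.2 h1))
          (mul_le_mul_of_nonneg_left (hf _) h0)
    _ = C := by ring

lemma E_add (f g : K → ℝ) (x : ℝ) : E (fun α => f α + g α) x = E f x + E g x := by
  unfold E; ring

lemma E_smul (c : ℝ) (f : K → ℝ) (x : ℝ) : E (fun α => c * f α) x = c * E f x := by
  unfold E; ring

open Classical in
/-- indicator function of an initial segment -/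
noncomputable def ind (β : K) (α : K) : ℝ := if β < α then 0 else 1

lemma ind_cont (β : K) : Continuous (ind β) := by
  classical
  unfold ind
  refine Continuous.if (p := fun α : K => β < α) ?_ continuous_const continuous_const
  intro a ha
  rw [(clopen β).frontier_eq] at ha
  exact absurd ha (Set.notMem_empty _)

lemma E_ind {β γ : K} (h : β < γ) (x : ℝ) :
    E (ind β) x = max 0 (min 1 (1 - (max x 0 - ph β) / w β)) := by
  classical
  have hw := w_pos β
  rcases lt_trichotomy (A x) β with h1 | h1 | h1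
  · have e1 : ind β (A x) = 1 := if_neg (not_lt.2 h1.le)
    have e2 : ind β (sc (A x)) = 1 := if_neg (not_lt.2 (sc_le h1))
    have h2 : max x 0 < ph β := by
      by_contra hcon
      push Not at hcon
      exact absurd (le_A hcon) (not_le.2 h1)
    have h3 : (max x 0 - ph β) / w β < 0 := div_neg_of_neg_of_pos (by linarith) hw
    unfold E
    rw [e1, e2, min_eq_left (by linarith), max_eq_right zero_le_one]
    ring
  · have e1 : ind β (A x) = 1 := if_neg (by rw [h1]; exact lt_irrefl _)
    have e2 : ind β (sc (A x)) = 0 := if_pos (by rw [h1]; exact lt_sc h)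
    have h4 := ph_A x
    rw [h1] at h4
    have h3 : 0 ≤ (max x 0 - ph β) / w β := div_nonneg (by linarith) hw.le
    unfold E t
    rw [e1, e2, h1, min_eq_right (by linarith : 1 - (max x 0 - ph β) / w β ≤ 1)]
    rcases le_total 1 ((max x 0 - ph β) / w β) with h5 | h5
    · rw [min_eq_left h5,
        max_eq_left (by linarith : 1 - (max x 0 - ph β) / w β ≤ (0 : ℝ))]
      ring
    · rw [min_eq_right h5,
        max_eq_right (by linarith : (0 : ℝ) ≤ 1 - (max x 0 - ph β) / w β)]
      ring
  · have e1 : ind β (A x) = 0 := if_pos h1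
    have e2 : ind β (sc (A x)) = 0 := if_pos (h1.trans_le (le_sc _))
    have h4 := ph_A x
    have h5 := ph_add h1
    have h3 : 1 ≤ (max x 0 - ph β) / w β := by
      rw [le_div_iff₀ hw]
      linarith
    unfold E
    rw [e1, e2, max_eq_left]
    · ring
    · exact (min_le_right _ _).trans (by linarith)

/-- the circle -/
abbrev G : Type := UnitAddCircle

lemma cont_ind (β : K) : Continuous fun θ : G => E (ind β) ‖θ‖ := by
  by_cases h : ∃ γ : K, β < γ
  · obtain ⟨γ, hγ⟩ := h
    have : (fun θ : G => E (ind β) ‖θ‖) =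
        fun θ : G => max 0 (min 1 (1 - (max ‖θ‖ 0 - ph β) / w β)) :=
      funext fun θ => E_ind hγ _
    rw [this]
    fun_prop
  · push Not at h
    have h1 : ∀ α, ind β α = 1 := fun α => if_neg (not_lt.2 (h α))
    have : (fun θ : G => E (ind β) ‖θ‖) = fun _ => 1 := by
      funext θ
      unfold E
      rw [h1, h1]
      ring
    rw [this]
    exact continuous_const

/-- the indicator functions form a submonoid -/
def inds : Submonoid C(K, ℝ) where
  carrier := {F | ∃ β : K, ∀ α, F α = ind β α}
  one_mem' := by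
    refine ⟨⟨Ordinal.omega0.{0} ^ Ordinal.omega0.{0}, Set.mem_Iic.2 le_rfl⟩, fun α => ?_⟩
    have h : ¬ ((⟨Ordinal.omega0.{0} ^ Ordinal.omega0.{0}, Set.mem_Iic.2 le_rfl⟩ : K) < α) :=
      not_lt.2 (Set.mem_Iic.1 α.2)
    unfold ind
    rw [if_neg h]
    rfl
  mul_mem' := by
    rintro F F' ⟨β, h⟩ ⟨β', h'⟩
    refine ⟨min β β', fun α => ?_⟩
    rw [ContinuousMap.mul_apply, h, h']
    unfold ind
    by_cases h1 : β < α
    · rw [if_pos h1, if_pos (lt_of_le_of_lt (min_le_left _ _) h1), zero_mul]
    · by_cases h2 : β' < α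
      · rw [if_pos h2, if_pos (lt_of_le_of_lt (min_le_right _ _) h2), mul_zero]
      · rw [if_neg h1, if_neg h2, if_neg, mul_one]
        intro h3
        rcases min_lt_iff.1 h3 with h4 | h4
        · exact h1 h4
        · exact h2 h4

lemma cont_span (F : C(K, ℝ)) (hF : F ∈ Submodule.span ℝ (inds : Set C(K, ℝ))) :
    Continuous (fun θ : G => E F ‖θ‖) := by
  induction hF using Submodule.span_induction with
  | mem F h =>
    obtain ⟨β, h⟩ := h
    have : (F : K → ℝ) = ind β := funext h
    rw [this]
    exact cont_ind β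
  | zero =>
    have h0 : ∀ θ : G, E ((0 : C(K, ℝ)) : K → ℝ) ‖θ‖ = 0 := by
      intro θ
      unfold E
      simp
    simp_rw [h0]
    exact continuous_const
  | add F F' _ _ h1 h2 =>
    have : ∀ θ : G, E ((F + F' : C(K, ℝ)) : K → ℝ) ‖θ‖ = E F ‖θ‖ + E F' ‖θ‖ := fun θ =>
      E_add F F' ‖θ‖
    simp_rw [this]
    exact h1.add h2
  | smul c F _ h1 =>
    have : ∀ θ : G, E ((c • F : C(K, ℝ)) : K → ℝ) ‖θ‖ = c * E F ‖θ‖ := fun θ =>
      E_smul c F ‖θ‖
    simp_rw [this]
    exact continuous_const.mul h1

lemma dense_span : (Submodule.span ℝ (inds : Set C(K, ℝ))).topologicalClosure = ⊤ := by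
  have key : ∀ x y : K, x < y → ∃ F ∈ (inds : Set C(K, ℝ)), F x ≠ F y := by
    intro x y hxy
    refine ⟨⟨ind x, ind_cont x⟩, ⟨x, fun _ => rfl⟩, ?_⟩
    change ind x x ≠ ind x y
    unfold ind
    rw [if_neg (lt_irrefl _), if_pos hxy]
    exact one_ne_zero
  have hsep : (Algebra.adjoin ℝ (inds : Set C(K, ℝ))).SeparatesPoints := by
    intro x y hxy
    rcases lt_or_gt_of_ne hxy with h | h
    · obtain ⟨F, hF, hne⟩ := key x y h
      exact ⟨_, ⟨F, Algebra.subset_adjoin hF, rfl⟩, hne⟩
    · obtain ⟨F, hF, hne⟩ := key y x h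
      exact ⟨_, ⟨F, Algebra.subset_adjoin hF, rfl⟩, hne.symm⟩
  have h := ContinuousMap.subalgebra_topologicalClosure_eq_top_of_separatesPoints _ hsep
  have h1 : Subalgebra.toSubmodule (Algebra.adjoin ℝ (inds : Set C(K, ℝ)))
      = Submodule.span ℝ (inds : Set C(K, ℝ)) := by
    rw [Algebra.adjoin_eq_span, Submonoid.closure_eq]
  rw [← h1]
  ext F
  constructor
  · intro _; trivial
  · intro _
    have h2 : F ∈ (Algebra.adjoin ℝ (inds : Set C(K, ℝ))).topologicalClosure := by
      rw [h]; trivial
    exact h2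

lemma E_sub_le (F F' : C(K, ℝ)) (x : ℝ) : |E F x - E F' x| ≤ ‖F - F'‖ := by
  have h1 : E F x - E F' x = E (fun α => F α + (-1) * F' α) x := by
    rw [E_add, E_smul]; ring
  rw [h1]
  apply E_bdd
  intro α
  have := (F - F').norm_coe_le_norm α
  rw [ContinuousMap.sub_apply, Real.norm_eq_abs] at this
  rw [show F α + (-1) * F' α = F α - F' α by ring]
  exact this

lemma cont_E (F : C(K, ℝ)) : Continuous (fun θ : G => E F ‖θ‖) := by
  rw [Metric.continuous_iff]
  intro θ ε hε
  have hF : F ∈ (Submodule.span ℝ (inds : Set C(K, ℝ))).topologicalClosure := by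
    rw [dense_span]; trivial
  have hF' : F ∈ closure ((Submodule.span ℝ (inds : Set C(K, ℝ))) : Set C(K, ℝ)) := hF
  obtain ⟨F', hF'm, hd⟩ := Metric.mem_closure_iff.mp hF' (ε / 4) (by linarith)
  obtain ⟨δ, hδ, h⟩ := (Metric.continuous_iff.mp (cont_span F' hF'm)) θ (ε / 4) (by linarith)
  refine ⟨δ, hδ, fun θ' hθ' => ?_⟩
  have h1 := E_sub_le F F' ‖θ‖
  have h2 := E_sub_le F F' ‖θ'‖
  have h3 := h θ' hθ'
  rw [dist_eq_norm] at hd
  rw [Real.dist_eq] at h3 ⊢
  rw [abs_le] at h1 h2
  rw [abs_lt] at h3 ⊢
  constructor <;> linarith [h1.1, h1.2, h2.1, h2.2, h3.1, h3.2]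

/-- the extension operator -/
noncomputable def U : C(K, ℝ) →L[ℝ] C(G, ℝ) :=
  LinearMap.mkContinuous
    { toFun := fun F => ⟨fun θ => E F ‖θ‖, cont_E F⟩
      map_add' := by
        intro F F'
        ext θ
        exact E_add F F' _
      map_smul' := by
        intro c F
        ext θ
        exact E_smul c F _ } 1 (by
    intro F
    rw [one_mul, ContinuousMap.norm_le _ (norm_nonneg _)]
    intro θ
    exact E_bdd (fun α => F.norm_coe_le_norm α) _)

lemma U_apply (F : C(K, ℝ)) (θ : G) : U F θ = E F ‖θ‖ := rfl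

/-- the embedding of `K` in the circle -/
noncomputable def em : C(K, G) := ⟨fun α => ((ph α : ℝ) : G),
  (AddCircle.continuous_mk' 1).comp ph_cont⟩

/-- restriction to `K` -/
noncomputable def V : C(G, ℝ) →L[ℝ] C(K, ℝ) :=
  LinearMap.mkContinuous
    { toFun := fun h => h.comp em
      map_add' := by intro h h'; rfl
      map_smul' := by intro c h; rfl } 1 (by
    intro h
    rw [one_mul, ContinuousMap.norm_le _ (norm_nonneg _)]
    intro p
    exact h.norm_coe_le_norm _)

lemma VU (F : C(K, ℝ)) : V (U F) = F := by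
  ext α
  change U F ((ph α : ℝ) : G) = F α
  rw [U_apply]
  have h : ‖((ph α : ℝ) : G)‖ = ph α := by
    have h1 : ‖((ph α : ℝ) : AddCircle (1 : ℝ))‖ = |ph α| := by
      rw [AddCircle.norm_coe_eq_abs_iff (1 : ℝ) one_ne_zero, abs_of_nonneg (ph_nonneg α), abs_one]
      exact ph_le α
    rw [abs_of_nonneg (ph_nonneg α)] at h1
    exact h1
  rw [h]
  exact E_ph F α

end H51R3.CB
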